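import Pool.Agent.Lib_helper35.DC.Defs

/-! Block BU: Busemann functions at uniquely ergodic directions. -/

set_option autoImplicit false

open MeasureTheory Filter Topology

namespace Pool.Agent.DC

variable {G X M : Type} [Group G] [MetricSpace X] [MulAction G X] [MetricSpace M]
    [MeasurableSpace M] [BorelSpace M] [MulAction G M]

/-- In a compact metric space a sequence converges if all limits of subsequences agree. -/
theorem bu_lim {P : Type} [MetricSpace P] [CompactSpace P] (F : ℕ → P) (ξ : P)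
    (h : ∀ (φ : ℕ → ℕ) (η : P), StrictMono φ → Tendsto (fun n => F (φ n)) atTop (𝓝 η) → η = ξ) :
    Tendsto F atTop (𝓝 ξ) := by
  apply tendsto_of_subseq_tendsto
  intro ns hns
  obtain ⟨ψ, hψ, hmono⟩ := strictMono_subseq_of_tendsto_atTop hns
  obtain ⟨η, χ, hχ, hlim⟩ := CompactSpace.tendsto_subseq (fun n => F (ns (ψ n)))
  refine ⟨fun n => ψ (χ n), ?_⟩
  have h1 := h (fun n => ns (ψ (χ n))) η (hmono.comp hχ) hlim
  rw [← h1]
  exact hlim

theorem bu_compact (T : TD G X M) : CompactSpace T.P := isCompact_iff_compactSpace.mp T.comp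

theorem bu_icont (T : TD G X M) {F F' : ℕ → T.P} {η η' : T.P} (h : Tendsto F atTop (𝓝 η))
    (h' : Tendsto F' atTop (𝓝 η')) :
    Tendsto (fun n => T.i (F n).1 (F' n).1) atTop (𝓝 (T.i η.1 η'.1)) := by
  have h1 : Tendsto (fun n => ((F n).1, (F' n).1)) atTop (𝓝 (η.1, η'.1)) :=
    ((continuous_subtype_val.tendsto η).comp h).prodMk_nhds ((continuous_subtype_val.tendsto η').comp h')
  exact (T.icont.tendsto (η.1, η'.1)).comp h1

/-- If the squares of the intersection numbers tend to `0`, the limits do not intersect. -/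
theorem bu_zero (T : TD G X M) {F F' : ℕ → T.P} {η η' : T.P} (h : Tendsto F atTop (𝓝 η))
    (h' : Tendsto F' atTop (𝓝 η')) (u : ℕ → ℝ) (hu : Tendsto u atTop (𝓝 0))
    (hle : ∀ n, T.i (F n).1 (F' n).1 ^ 2 ≤ u n) : T.i η.1 η'.1 = 0 := by
  have h1 : Tendsto (fun n => T.i (F n).1 (F' n).1 ^ 2) atTop (𝓝 (T.i η.1 η'.1 ^ 2)) :=
    (bu_icont T h h').pow 2
  have h2 : Tendsto (fun n => T.i (F n).1 (F' n).1 ^ 2) atTop (𝓝 0) :=
    squeeze_zero (fun n => sq_nonneg _) hle hu
  have h3 := tendsto_nhds_unique h1 h2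
  exact pow_eq_zero_iff (two_ne_zero) |>.mp h3

theorem bu_exp (T : TD G X M) (g : ℕ → G) (hg : Tendsto (fun n => T.len (g n)) atTop atTop)
    (c : ℝ) : Tendsto (fun n => c * Real.exp (-(2 * T.len (g n)))) atTop (𝓝 0) := by
  have h1 : Tendsto (fun n => -(2 * T.len (g n))) atTop atBot := by
    apply tendsto_neg_atTop_atBot.comp
    exact hg.const_mul_atTop (by norm_num)
  have h2 := (Real.tendsto_exp_atBot.comp h1).const_mul c
  rw [mul_zero] at h2
  exact h2

/-- Directions with bounded extremal length along the sequence tend to the limit direction. -/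
theorem bu_U (T : TD G X M) (g : ℕ → G) (hg : Tendsto (fun n => T.len (g n)) atTop atTop)
    (ξ : T.P) (hξ : T.UE ξ) (hp : Tendsto (fun n => T.pi (g n)) atTop (𝓝 ξ)) (F : ℕ → T.P) (c : ℝ)
    (hF : ∀ n, T.E (g n • T.o) (F n).1 ≤ c) : Tendsto F atTop (𝓝 ξ) := by
  have hc := bu_compact T
  apply bu_lim
  intro φ η hφ hη
  apply hξ
  have hφ' := hφ.tendsto_atTop
  apply bu_zero T (hp.comp hφ') hη (fun n => c * Real.exp (-(2 * T.len (g (φ n)))))
    (bu_exp T (fun n => g (φ n)) (hg.comp hφ') c)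
  intro n
  refine le_trans (T.minsky (g (φ n) • T.o) _ _) ?_
  have h1 : T.E (g (φ n) • T.o) (T.pi (g (φ n))).1 = Real.exp (-(2 * T.len (g (φ n)))) :=
    T.hpi (g (φ n))
  show T.E (g (φ n) • T.o) (T.pi (g (φ n))).1 * T.E (g (φ n) • T.o) (F (φ n)).1 ≤ _
  rw [h1, mul_comm]
  exact mul_le_mul_of_nonneg_right (hF (φ n)) (Real.exp_pos _).le

theorem bu_Econt (T : TD G X M) (y : X) {F : ℕ → T.P} {ξ : T.P} (h : Tendsto F atTop (𝓝 ξ)) :
    Tendsto (fun n => Real.log (T.E y (F n).1) / 2) atTop (𝓝 (Real.log (T.E y ξ.1) / 2)) := by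
  have h1 : Tendsto (fun n => T.E y (F n).1) atTop (𝓝 (T.E y ξ.1)) :=
    (((T.Econt y).comp continuous_subtype_val).tendsto ξ).comp h
  exact (h1.log (T.Epos y ξ.1).ne').div_const 2

/-- BLOCK BU. Busemann functions at uniquely ergodic directions. -/
theorem BU_main (T : TD G X M) (g : ℕ → G) (hg : Tendsto (fun n => T.len (g n)) atTop atTop)
    (ξ : T.P) (hξ : T.UE ξ) (hp : Tendsto (fun n => T.pi (g n)) atTop (𝓝 ξ)) (y : X) :
    Tendsto (fun n => dist y (g n • T.o) - T.len (g n)) atTop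
      (𝓝 (Real.log (T.E y ξ.1) / 2)) := by
  choose F hF1 hF2 using fun n => T.teich y (g n • T.o)
  have hF : Tendsto (fun n => (⟨F n, hF1 n⟩ : T.P)) atTop (𝓝 ξ) := by
    apply bu_U T g hg ξ hξ hp _ (Real.exp (2 * dist y T.o))
    intro n
    show T.E (g n • T.o) (F n) ≤ _
    rw [hF2 n]
    have h1 := T.kerck y T.o (F n)
    rw [hF1 n, mul_one] at h1
    calc Real.exp (-(2 * dist y (g n • T.o))) * T.E y (F n) ≤ 1 * T.E y (F n) := by
          apply mul_le_mul_of_nonneg_right _ (T.Epos _ _).le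
          rw [Real.exp_le_one_iff]
          linarith [dist_nonneg (x := y) (y := g n • T.o)]
      _ ≤ _ := by
          rw [one_mul]
          exact h1
  apply tendsto_of_tendsto_of_tendsto_of_le_of_le (bu_Econt T y hp) (bu_Econt T y hF)
  · intro n
    show Real.log (T.E y (T.pi (g n)).1) / 2 ≤ dist y (g n • T.o) - T.len (g n)
    have h1 := T.kerck y (g n • T.o) (T.pi (g n)).1
    rw [T.hpi (g n), ← Real.exp_add] at h1
    have h2 := Real.log_le_log (T.Epos y _) h1
    rw [Real.log_exp] at h2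
    have h3 : T.len (g n) = dist T.o (g n • T.o) := rfl
    rw [h3]
    linarith
  · intro n
    show dist y (g n • T.o) - T.len (g n) ≤ Real.log (T.E y (F n)) / 2
    have h1 := T.kerck T.o (g n • T.o) (F n)
    rw [hF1 n, hF2 n, ← mul_assoc, ← Real.exp_add] at h1
    have h2 := Real.log_le_log one_pos h1
    rw [Real.log_one, Real.log_mul (Real.exp_pos _).ne' (T.Epos y _).ne', Real.log_exp] at h2
    have h3 : T.len (g n) = dist T.o (g n • T.o) := rfl
    rw [h3]
    linarith

theorem BU_right (T : TD G X M) (g : ℕ → G) (hg : Tendsto (fun n => T.len (g n)) atTop atTop)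
    (ξ : T.P) (hξ : T.UE ξ) (hp : Tendsto (fun n => T.pi (g n)) atTop (𝓝 ξ)) (k : G) :
    Tendsto (fun n => T.pi (g n * k)) atTop (𝓝 ξ) := by
  apply bu_U T g hg ξ hξ hp _ (Real.exp (2 * T.len k))
  intro n
  have h1 := T.kerck (g n • T.o) ((g n * k) • T.o) (T.pi (g n * k)).1
  rw [T.hpi (g n * k), mul_smul, T.isom, ← Real.exp_add] at h1
  refine le_trans h1 (Real.exp_le_exp.mpr ?_)
  have h3 : T.len k = dist T.o (k • T.o) := rfl
  rw [h3]
  linarith [dist_nonneg (x := T.o) (y := g n • k • T.o)]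

end Pool.Agent.DC
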