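import Pool.Agent.Lib_helper35.DC.Defs

/-! Block DG: diagonal sequences. -/

set_option autoImplicit false

open MeasureTheory Filter Topology

namespace Pool.Agent.DC

variable {G P : Type} [Group G] [MetricSpace P] [MeasurableSpace P] [BorelSpace P] [CompactSpace P]

/-- The accumulation points of the pairs of directions. -/
private def dgAcc (D : Cnt G P) (A : Set G) : Set (P × P) :=
  {z | ∀ (L δ : ℝ), 0 < δ → ∃ g ∈ A, L ≤ D.len g ∧ dist (D.pi g, D.pi g⁻¹) z < δ}

omit [BorelSpace P] [CompactSpace P] in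
private theorem dg_closed (D : Cnt G P) (A : Set G) : IsClosed (dgAcc D A) := by
  rw [← isSeqClosed_iff_isClosed]
  intro x z hx hz L δ hδ
  obtain ⟨n, hn⟩ := ((tendsto_order.mp ((tendsto_iff_dist_tendsto_zero.mp hz))).2 (δ / 2)
    (by linarith)).exists
  obtain ⟨g, hg, h1, h2⟩ := hx n L (δ / 2) (by linarith)
  exact ⟨g, hg, h1, by linarith [dist_triangle (D.pi g, D.pi g⁻¹) (x n) z]⟩

omit [BorelSpace P] [CompactSpace P] in
private theorem dg_anti (D : Cnt G P) {A B : Set G} (h : A ⊆ B) : dgAcc D A ⊆ dgAcc D B := by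
  intro z hz L δ hδ
  obtain ⟨g, hg, h1⟩ := hz L δ hδ
  exact ⟨g, h hg, h1⟩

omit [BorelSpace P] [CompactSpace P] in
private theorem dg_card (D : Cnt G P) (r : ℝ) (Φ : P × P → ℝ) (B : Set G)
    (h0 : ∀ z, 0 ≤ Φ z) (h1 : ∀ g ∈ B, 1 ≤ Φ (D.pi g, D.pi g⁻¹)) :
    (Set.ncard {g | g ∈ B ∧ D.len g ≤ r} : ℝ) ≤
      ∑ g ∈ (D.fin r).toFinset, Φ (D.pi g, D.pi g⁻¹) := by
  classical
  have hfin : {g | g ∈ B ∧ D.len g ≤ r}.Finite := (D.fin r).subset fun g hg => hg.2
  rw [Set.ncard_eq_toFinset_card _ hfin]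
  have h2 : (hfin.toFinset.card : ℝ) = ∑ g ∈ hfin.toFinset, (1 : ℝ) := by
    rw [Finset.sum_const, nsmul_eq_mul, mul_one]
  rw [h2]
  calc ∑ g ∈ hfin.toFinset, (1 : ℝ) ≤ ∑ g ∈ hfin.toFinset, Φ (D.pi g, D.pi g⁻¹) := by
        apply Finset.sum_le_sum
        intro g hg
        rw [Set.Finite.mem_toFinset] at hg
        exact h1 g hg.1
    _ ≤ _ := by
        apply Finset.sum_le_sum_of_subset_of_nonneg
        · intro g hg
          rw [Set.Finite.mem_toFinset] at hg ⊢
          exact hg.2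
        · intro g _ _
          exact h0 _

/-- A set whose accumulation points lie in a closed set of small measure has small density. -/
private theorem dg_small (D : Cnt G P) (A : Set G) (ε : ℝ) (hε : 0 < ε)
    (hF : (D.nu.prod D.nu) (dgAcc D A) < ENNReal.ofReal (ε / (2 * D.C))) : D.Small A ε := by
  have hprob := D.prob
  have hC := D.Cpos
  have hh := D.hpos
  obtain ⟨U, hU1, hU2, hU3⟩ := (dgAcc D A).exists_isOpen_lt_of_lt _ hF
  obtain ⟨φ, hφ0, hφ1, hφ⟩ := exists_continuous_zero_one_of_isClosed (isClosed_compl_iff.mpr hU2)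
    (dg_closed D A) (Set.disjoint_left.mpr fun z hz hz' => hz (hU1 hz'))
  let Φ : P × P → ℝ := fun z => min 1 (2 * φ z)
  have hΦc : Continuous Φ := continuous_const.min (continuous_const.mul φ.continuous)
  have hΦ0 : ∀ z, 0 ≤ Φ z := fun z => le_min zero_le_one (mul_nonneg (by norm_num) (hφ z).1)
  have hΦ1 : ∀ z, Φ z ≤ U.indicator (fun _ => (1 : ℝ)) z := by
    intro z
    by_cases hz : z ∈ U
    · rw [Set.indicator_of_mem hz]
      exact min_le_left _ _
    · rw [Set.indicator_of_notMem hz]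
      have : φ z = 0 := hφ0 hz
      show min 1 (2 * φ z) ≤ 0
      rw [this, mul_zero]
      exact min_le_right _ _
  -- the elements with the pair outside the neighbourhood
  let B : Set G := {g | g ∈ A ∧ φ (D.pi g, D.pi g⁻¹) ≤ 1 / 2}
  have hB : B.Finite := by
    by_contra hinf
    have hinf' : B.Infinite := hinf
    have hex : ∀ n : ℕ, ∃ g ∈ B, (n : ℝ) ≤ D.len g := by
      intro n
      by_contra hcon
      push Not at hcon
      exact hinf' ((D.fin n).subset fun g hg => (hcon g hg).le)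
    choose g hg1 hg2 using hex
    obtain ⟨z, ψ, hψ, hz⟩ := CompactSpace.tendsto_subseq (fun n => (D.pi (g n), D.pi (g n)⁻¹))
    have hzA : z ∈ dgAcc D A := by
      intro L δ hδ
      have h1 : ∀ᶠ n in atTop, dist (D.pi (g (ψ n)), D.pi (g (ψ n))⁻¹) z < δ :=
        (tendsto_order.mp (tendsto_iff_dist_tendsto_zero.mp hz)).2 δ hδ
      have h2 : ∀ᶠ n : ℕ in atTop, L ≤ (n : ℝ) := tendsto_natCast_atTop_atTop.eventually_ge_atTop L
      obtain ⟨n, hn1, hn2⟩ := (h1.and h2).exists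
      refine ⟨g (ψ n), (hg1 (ψ n)).1, ?_, hn1⟩
      have h3 : (n : ℝ) ≤ (ψ n : ℝ) := by exact_mod_cast hψ.id_le n
      linarith [hg2 (ψ n)]
    have h1 : φ z ≤ 1 / 2 := by
      refine le_of_tendsto ((φ.continuous.tendsto z).comp hz) ?_
      exact Eventually.of_forall fun n => (hg1 (ψ n)).2
    have h2 : φ z = 1 := hφ1 hzA
    rw [h2] at h1
    norm_num at h1
  -- the limit of the sum
  have hint : ∫ z, Φ z ∂(D.nu.prod D.nu) < ε / (2 * D.C) := by
    have h1 : ∫ z, Φ z ∂(D.nu.prod D.nu) ≤ ∫ z, U.indicator (fun _ => (1 : ℝ)) z ∂(D.nu.prod D.nu) := by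
      apply integral_mono
      · apply Integrable.of_bound (C := 1) hΦc.aestronglyMeasurable
        refine Eventually.of_forall fun z => ?_
        rw [Real.norm_eq_abs, abs_of_nonneg (hΦ0 z)]
        exact min_le_left _ _
      · exact (integrable_const _).indicator hU2.measurableSet
      · exact hΦ1
    have h2 : ∫ z, U.indicator (fun _ => (1 : ℝ)) z ∂(D.nu.prod D.nu) =
        ((D.nu.prod D.nu) U).toReal := by
      rw [integral_indicator_const _ hU2.measurableSet, smul_eq_mul, mul_one]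
      rfl
    rw [h2] at h1
    refine lt_of_le_of_lt h1 ?_
    rw [← ENNReal.toReal_ofReal (show 0 ≤ ε / (2 * D.C) by positivity)]
    exact (ENNReal.toReal_lt_toReal (measure_ne_top _ _) ENNReal.ofReal_ne_top).mpr hU3
  have h1 : D.C * ∫ z, Φ z ∂(D.nu.prod D.nu) < ε / 2 := by
    calc D.C * ∫ z, Φ z ∂(D.nu.prod D.nu) < D.C * (ε / (2 * D.C)) :=
          mul_lt_mul_of_pos_left hint hC
      _ = ε / 2 := by field_simp
  have h2 := (tendsto_order.mp (D.equi Φ hΦc)).2 (ε / 2) h1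
  have h3 : Tendsto (fun r : ℝ => Real.exp (D.h * r)) atTop atTop :=
    Real.tendsto_exp_atTop.comp (tendsto_id.const_mul_atTop hh)
  have h4 : ∀ᶠ r in atTop, (B.ncard : ℝ) / (ε / 2) ≤ Real.exp (D.h * r) :=
    h3.eventually_ge_atTop _
  filter_upwards [h2, h4] with r h5 h6
  have hpos := Real.exp_pos (D.h * r)
  have h7 : ∑ g ∈ (D.fin r).toFinset, Φ (D.pi g, D.pi g⁻¹) ≤ ε / 2 * Real.exp (D.h * r) := by
    rw [Real.exp_neg] at h5
    have h8 : (Real.exp (D.h * r))⁻¹ * ∑ g ∈ (D.fin r).toFinset, Φ (D.pi g, D.pi g⁻¹) *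
        1 ≤ ε / 2 := by
      simpa using h5.le
    rw [inv_mul_le_iff₀ hpos] at h8
    have h9 : ∑ g ∈ (D.fin r).toFinset, Φ (D.pi g, D.pi g⁻¹) * 1 =
      ∑ g ∈ (D.fin r).toFinset, Φ (D.pi g, D.pi g⁻¹) := by
      simp
    rw [h9] at h8
    linarith
  have h8 : (B.ncard : ℝ) ≤ ε / 2 * Real.exp (D.h * r) := by
    rw [div_le_iff₀ (by linarith)] at h6
    linarith
  have h9 : (Set.ncard {g | g ∈ A ∧ D.len g ≤ r} : ℝ) ≤ (B.ncard : ℝ) +
      (Set.ncard {g | g ∈ A \ B ∧ D.len g ≤ r} : ℝ) := by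
    have : Set.ncard {g | g ∈ A ∧ D.len g ≤ r} ≤ B.ncard +
        Set.ncard {g | g ∈ A \ B ∧ D.len g ≤ r} := by
      refine le_trans (Set.ncard_le_ncard ?_ (hB.union ((D.fin r).subset fun g hg => hg.2)))
        (Set.ncard_union_le _ _)
      rintro g ⟨hg1, hg2⟩
      by_cases hgB : g ∈ B
      · exact Or.inl hgB
      · exact Or.inr ⟨⟨hg1, hgB⟩, hg2⟩
    exact_mod_cast this
  have h10 := dg_card D r Φ (A \ B) hΦ0 (by
    rintro g ⟨hg1, hg2⟩
    have h11 : 1 / 2 < φ (D.pi g, D.pi g⁻¹) := by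
      by_contra hcon
      exact hg2 ⟨hg1, not_lt.mp hcon⟩
    exact le_min le_rfl (by linarith))
  linarith

/-- BLOCK DG. Diagonal sequences: a decreasing sequence of sets whose diagonal sequences accumulate in a
null set has small densities. -/
theorem DG_main (D : Cnt G P) (A : ℕ → Set G) (hA : Antitone A) (N : Set (P × P))
    (hN : (D.nu.prod D.nu) N = 0)
    (h : ∀ g : ℕ → G, (∀ n, g n ∈ A n) → Tendsto (fun n => D.len (g n)) atTop atTop →
      ∀ z : P × P, Tendsto (fun n => (D.pi (g n), D.pi (g n)⁻¹)) atTop (𝓝 z) → z ∈ N)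
    (ε : ℝ) (hε : 0 < ε) : ∃ c, D.Small (A c) ε := by
  have hprob := D.prob
  have hC := D.Cpos
  have h1 : ⋂ n, dgAcc D (A n) ⊆ N := by
    intro z hz
    rw [Set.mem_iInter] at hz
    have hex : ∀ n : ℕ, ∃ g ∈ A n, (n : ℝ) ≤ D.len g ∧
        dist (D.pi g, D.pi g⁻¹) z < 1 / ((n : ℝ) + 1) := fun n =>
      hz n n (1 / ((n : ℝ) + 1)) (by positivity)
    choose g hg1 hg2 hg3 using hex
    apply h g hg1
    · exact tendsto_atTop_mono hg2 tendsto_natCast_atTop_atTop
    · rw [tendsto_iff_dist_tendsto_zero]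
      exact squeeze_zero (fun n => dist_nonneg) (fun n => (hg3 n).le)
        tendsto_one_div_add_atTop_nhds_zero_nat
  have h2 : (D.nu.prod D.nu) (⋂ n, dgAcc D (A n)) = 0 := measure_mono_null h1 hN
  have h3 : Tendsto (fun n => (D.nu.prod D.nu) (dgAcc D (A n))) atTop
      (𝓝 ((D.nu.prod D.nu) (⋂ n, dgAcc D (A n)))) := by
    apply tendsto_measure_iInter_atTop
    · intro n
      exact (dg_closed D (A n)).measurableSet.nullMeasurableSet
    · intro m n hmn
      exact dg_anti D (hA hmn)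
    · exact ⟨0, measure_ne_top _ _⟩
  rw [h2] at h3
  obtain ⟨c, hc⟩ := ((tendsto_order.mp h3).2 (ENNReal.ofReal (ε / (2 * D.C)))
    (ENNReal.ofReal_pos.mpr (by positivity))).exists
  exact ⟨c, dg_small D (A c) ε hε hc⟩

end Pool.Agent.DC
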