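import Mathlib

/-! # Double coset growth: definitions

`Cnt` is the counting part (a group with a length function and directions which are equidistributed),
`TD` the geometric part (a group acting on a metric space with extremal lengths). -/

set_option autoImplicit false

open MeasureTheory Filter Topology

namespace Pool.Agent.DC

/-- A group with a length function, directions in a compact space, and the equidistribution of the
pairs of directions of `g` and of `g⁻¹`. -/
structure Cnt (G P : Type) [Group G] [MetricSpace P] [MeasurableSpace P] where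
  len : G → ℝ
  pi : G → P
  nu : Measure P
  h : ℝ
  C : ℝ
  prob : IsProbabilityMeasure nu
  hpos : 0 < h
  Cpos : 0 < C
  nonneg : ∀ g, 0 ≤ len g
  inv : ∀ g, len g⁻¹ = len g
  fin : ∀ r, {g : G | len g ≤ r}.Finite
  equi : ∀ Φ : P × P → ℝ, Continuous Φ →
    Tendsto (fun r => Real.exp (-(h * r)) * ∑ g ∈ (fin r).toFinset, Φ (pi g, pi g⁻¹)) atTop
      (𝓝 (C * ∫ z, Φ z ∂(nu.prod nu)))

section

variable {G P : Type} [Group G] [MetricSpace P] [MeasurableSpace P]

/-- The upper density is at most `ε`. -/
def Cnt.Small (D : Cnt G P) (A : Set G) (ε : ℝ) : Prop :=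
  ∀ᶠ r in atTop, (Set.ncard {g | g ∈ A ∧ D.len g ≤ r} : ℝ) ≤ ε * Real.exp (D.h * r)

/-- Density zero. -/
def Cnt.Negl (D : Cnt G P) (A : Set G) : Prop := ∀ ε > 0, D.Small A ε

end

/-- A compact set `σ` in a geodesic from `a` to `b` which is contracting with the constant `D`. -/
structure Seg {X : Type} [MetricSpace X] (D : ℝ) (σ : Set X) (a b : X) : Prop where
  comp : IsCompact σ
  left : a ∈ σ
  right : b ∈ σ
  geod : ∀ p ∈ σ, dist a p + dist p b = dist a b
  contr : ∀ x y, ∀ p ∈ σ, ∀ q ∈ σ, (∀ s ∈ σ, dist x p ≤ dist x s) → (∀ s ∈ σ, dist y q ≤ dist y s) →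
    D ≤ dist p q → dist x p + dist p q + dist q y ≤ dist x y + D

/-- The geometry of a group acting on a metric space `X` (Teichmüller space, with base point `o`) with
extremal lengths `E x μ` of the elements of `M` (measured foliations), the intersection number `i`, the
directions `pi g` of the geodesics from `o` to `g o`, the measure `nu` on the unit sphere of extremal
length at `o` (Thurston measure) and the exponent `h` (`6g - 6`). -/
structure TD (G X M : Type) [Group G] [MetricSpace X] [MulAction G X] [MetricSpace M]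
    [MeasurableSpace M] [BorelSpace M] [MulAction G M] where
  o : X
  E : X → M → ℝ
  i : M → M → ℝ
  pi : G → {μ : M // E o μ = 1}
  nu : Measure {μ : M // E o μ = 1}
  h : ℝ
  C : ℝ
  prob : IsProbabilityMeasure nu
  hpos : 0 < h
  Cpos : 0 < C
  /-- The action is isometric and properly discontinuous. -/
  isom : ∀ (g : G) (x y : X), dist (g • x) (g • y) = dist x y
  fin : ∀ r, {g : G | dist o (g • o) ≤ r}.Finite
  /-- Extremal length and intersection number: positivity, continuity, invariance. -/
  Epos : ∀ x μ, 0 < E x μ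
  Econt : ∀ x, Continuous (E x)
  Einv : ∀ (g : G) (x : X) (μ : M), E (g • x) (g • μ) = E x μ
  icont : Continuous fun p : M × M => i p.1 p.2
  isymm : ∀ μ η, i μ η = i η μ
  acont : ∀ g : G, Continuous fun μ : M => g • μ
  /-- The unit sphere of extremal length is compact. -/
  comp : IsCompact {μ : M | E o μ = 1}
  /-- Kerckhoff's formula (easy half). -/
  kerck : ∀ (x y : X) (μ : M), E x μ ≤ Real.exp (2 * dist x y) * E y μ
  /-- Minsky's inequality. -/
  minsky : ∀ (x : X) (μ η : M), i μ η ^ 2 ≤ E x μ * E x η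
  /-- Teichmüller's theorem. -/
  teich : ∀ x y : X, ∃ μ : M, E o μ = 1 ∧ E y μ = Real.exp (-(2 * dist x y)) * E x μ
  hpi : ∀ g : G, E (g • o) (pi g).1 = Real.exp (-(2 * dist o (g • o)))
  /-- Masur, Veech: almost every direction is uniquely ergodic. -/
  ue : ∀ᵐ ξ ∂nu, ∀ η : {μ : M // E o μ = 1}, i ξ.1 η.1 = 0 → η = ξ
  /-- The action on the directions is essentially free. -/
  free : ∀ k : G, (∃ x : X, k • x ≠ x) → ∀ᵐ ξ ∂nu, i ξ.1 (k • ξ.1) ≠ 0
  /-- Athreya, Bufetov, Eskin, Mirzakhani: equidistribution of the pairs of directions. -/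
  equi : ∀ Φ : {μ : M // E o μ = 1} × {μ : M // E o μ = 1} → ℝ, Continuous Φ →
    Tendsto (fun r => Real.exp (-(h * r)) * ∑ g ∈ (fin r).toFinset, Φ (pi g, pi g⁻¹)) atTop
      (𝓝 (C * ∫ z, Φ z ∂(nu.prod nu)))
  /-- Yang, Minsky: long contracting segments along almost all geodesics. -/
  barrier : ∃ ε D : ℝ, ∀ L : ℝ, ∃ (f : G) (σ : Set X), Seg D σ o (f • o) ∧ L ≤ dist o (f • o) ∧
    ∀ δ > 0, ∀ᶠ r in atTop, (Set.ncard {g : G | dist o (g • o) ≤ r ∧ ¬ ∃ t : G,
      dist o (t • o) + dist (t • o) (t • f • o) + dist (t • f • o) (g • o) ≤ dist o (g • o) + ε ∨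
      dist o (t • f • o) + dist (t • f • o) (t • o) + dist (t • o) (g • o) ≤ dist o (g • o) + ε} : ℝ) ≤
      δ * Real.exp (h * r)

section

variable {G X M : Type} [Group G] [MetricSpace X] [MulAction G X] [MetricSpace M]
    [MeasurableSpace M] [BorelSpace M] [MulAction G M]

/-- The directions. -/
abbrev TD.P (T : TD G X M) : Type := {μ : M // T.E T.o μ = 1}

/-- The length of a group element. -/
def TD.len (T : TD G X M) (g : G) : ℝ := dist T.o (g • T.o)

/-- The counting part. -/
def TD.cnt (T : TD G X M) : Cnt G T.P where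
  len := T.len
  pi := T.pi
  nu := T.nu
  h := T.h
  C := T.C
  prob := T.prob
  hpos := T.hpos
  Cpos := T.Cpos
  nonneg _ := dist_nonneg
  inv g := by
    show dist T.o (g⁻¹ • T.o) = dist T.o (g • T.o)
    rw [← T.isom g T.o (g⁻¹ • T.o), smul_inv_smul, dist_comm]
  fin := T.fin
  equi := T.equi

/-- Uniquely ergodic directions. -/
def TD.UE (T : TD G X M) (ξ : T.P) : Prop := ∀ η : T.P, T.i ξ.1 η.1 = 0 → η = ξ

/-- The limit function of `len (a g b) - len g`. -/
noncomputable def TD.m (T : TD G X M) (a b : G) (z : T.P × T.P) : ℝ :=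
  Real.log (T.E (a⁻¹ • T.o) z.1.1) / 2 + Real.log (T.E (b • T.o) z.2.1) / 2

/-- A subgroup with a null limit set: a closed null set of directions such that for every element of the
subgroup some direction of the set has bounded extremal length (meridians for the handlebody group). -/
def TD.NullLim (T : TD G X M) (H : Subgroup G) : Prop :=
  ∃ Λ : Set T.P, IsClosed Λ ∧ T.nu Λ = 0 ∧ ∃ c : ℝ, ∀ h ∈ H, ∃ η ∈ Λ, T.E (h • T.o) η.1 ≤ c

/-- The distance of two sets. -/
noncomputable def sdist (A B : Set X) : ℝ := sInf {t | ∃ a ∈ A, ∃ b ∈ B, t = dist a b}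

/-- The double coset growth function: the number of double cosets `H φ K` such that the distance of the
sets `H o` and `φ K o` is at most `r`. -/
noncomputable def TD.gr (T : TD G X M) (H K : Subgroup G) (r : ℝ) : ℕ :=
  Set.ncard {S : Set G | ∃ φ : G, S = DoubleCoset.doubleCoset φ (H : Set G) (K : Set G) ∧
    sdist {x : X | ∃ a ∈ H, x = a • T.o} {x : X | ∃ b ∈ K, x = (φ * b) • T.o} ≤ r}

end

end Pool.Agent.DC
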