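import Pool.Agent.Lib_helper35.DC.BU
import Pool.Agent.Lib_helper35.DC.DG

/-! Blocks FR, ON, TS: applications of the diagonal lemma. -/

set_option autoImplicit false

open MeasureTheory Filter Topology

namespace Pool.Agent.DC

variable {G X M : Type} [Group G] [MetricSpace X] [MulAction G X] [MetricSpace M]
    [MeasurableSpace M] [BorelSpace M] [MulAction G M]

private theorem fr_fst (T : TD G X M) (p : T.P → Prop) (h : ∀ᵐ ξ ∂T.nu, p ξ) :
    (T.nu.prod T.nu) {z | ¬ p z.1} = 0 := by
  have hprob := T.prob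
  exact (Measure.quasiMeasurePreserving_fst (μ := T.nu) (ν := T.nu)).ae h

private theorem fr_snd (T : TD G X M) (p : T.P → Prop) (h : ∀ᵐ ξ ∂T.nu, p ξ) :
    (T.nu.prod T.nu) {z | ¬ p z.2} = 0 := by
  have hprob := T.prob
  exact (Measure.quasiMeasurePreserving_snd (μ := T.nu) (ν := T.nu)).ae h

private theorem fr_negl (T : TD G X M) (A : Set G) (N : Set (T.P × T.P))
    (hN : (T.nu.prod T.nu) N = 0)
    (h : ∀ g : ℕ → G, (∀ n, g n ∈ A) → Tendsto (fun n => T.len (g n)) atTop atTop →
      ∀ z : T.P × T.P, Tendsto (fun n => (T.pi (g n), T.pi (g n)⁻¹)) atTop (𝓝 z) → z ∈ N) :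
    T.cnt.Negl A := by
  have hc := bu_compact T
  intro ε hε
  obtain ⟨c, hc⟩ := DG_main T.cnt (fun _ => A) antitone_const N hN h ε hε
  exact hc

/-- BLOCK FR. No coincidences `a g = g b`. -/
theorem FR_main (T : TD G X M) (a b : G) (ha : ∃ x : X, a • x ≠ x) :
    T.cnt.Negl {g | a * g = g * b} := by
  apply fr_negl T _ {z | ¬ T.i z.1.1 (a • z.1.1) ≠ 0} (fr_fst T _ (T.free a ha))
  intro g hg hlen z hz
  show ¬ T.i z.1.1 (a • z.1.1) ≠ 0
  rw [not_not]
  have hp : Tendsto (fun n => T.pi (g n)) atTop (𝓝 z.1) := (continuous_fst.tendsto z).comp hz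
  have hv : Tendsto (fun n => (T.pi (g n)).1) atTop (𝓝 z.1.1) :=
    (continuous_subtype_val.tendsto z.1).comp hp
  have h1 : Tendsto (fun n => T.i (T.pi (g n)).1 (a • (T.pi (g n)).1) ^ 2) atTop
      (𝓝 (T.i z.1.1 (a • z.1.1) ^ 2)) := by
    have h2 : Tendsto (fun n => ((T.pi (g n)).1, a • (T.pi (g n)).1)) atTop
        (𝓝 (z.1.1, a • z.1.1)) := hv.prodMk_nhds (((T.acont a).tendsto z.1.1).comp hv)
    exact ((T.icont.tendsto (z.1.1, a • z.1.1)).comp h2).pow 2
  have h3 : Tendsto (fun n => T.i (T.pi (g n)).1 (a • (T.pi (g n)).1) ^ 2) atTop (𝓝 0) := by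
    apply squeeze_zero (fun n => sq_nonneg _) _ (bu_exp T g hlen (Real.exp (2 * T.len b)))
    intro n
    refine le_trans (T.minsky (g n • T.o) _ _) ?_
    have h4 : T.E (g n • T.o) (T.pi (g n)).1 = Real.exp (-(2 * T.len (g n))) := T.hpi (g n)
    have h5 : T.E (g n • T.o) (a • (T.pi (g n)).1) ≤
        Real.exp (2 * T.len b) * Real.exp (-(2 * T.len (g n))) := by
      have h6 := T.kerck (g n • T.o) (a • g n • T.o) (a • (T.pi (g n)).1)
      rw [T.Einv, h4] at h6
      have h7 : a • g n • T.o = g n • b • T.o := by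
        rw [← mul_smul, hg n, mul_smul]
      rw [h7, T.isom] at h6
      exact h6
    rw [h4]
    have h8 : Real.exp (-(2 * T.len (g n))) ≤ 1 := by
      rw [Real.exp_le_one_iff]
      have h9 : 0 ≤ T.len (g n) := dist_nonneg
      linarith
    calc Real.exp (-(2 * T.len (g n))) * T.E (g n • T.o) (a • (T.pi (g n)).1) ≤
        1 * T.E (g n • T.o) (a • (T.pi (g n)).1) :=
          mul_le_mul_of_nonneg_right h8 (T.Epos _ _).le
      _ ≤ _ := by
          rw [one_mul]
          exact h5
  have h10 := tendsto_nhds_unique h1 h3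
  exact pow_eq_zero_iff (two_ne_zero) |>.mp h10

/-- BLOCK TS. The lengths of `a g b`. -/
theorem TS_cont (T : TD G X M) (a b : G) : Continuous (T.m a b) := by
  unfold TD.m
  apply Continuous.add
  · apply Continuous.div_const
    apply Continuous.log
    · exact (T.Econt _).comp (continuous_subtype_val.comp continuous_fst)
    · intro z
      exact (T.Epos _ _).ne'
  · apply Continuous.div_const
    apply Continuous.log
    · exact (T.Econt _).comp (continuous_subtype_val.comp continuous_snd)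
    · intro z
      exact (T.Epos _ _).ne'

theorem TS_main (T : TD G X M) (a b : G) (δ : ℝ) (hδ : 0 < δ) :
    T.cnt.Negl {g | δ ≤ |T.len (a * g * b) - T.len g - T.m a b (T.pi g, T.pi g⁻¹)|} := by
  apply fr_negl T _ ({z | ¬ T.UE z.1} ∪ {z | ¬ T.UE z.2})
    (measure_union_null (fr_fst T _ T.ue) (fr_snd T _ T.ue))
  intro g hg hlen z hz
  by_contra hcon
  rw [Set.mem_union, not_or] at hcon
  have hu1 : T.UE z.1 := not_not.mp hcon.1
  have hu2 : T.UE z.2 := not_not.mp hcon.2
  have hp1 : Tendsto (fun n => T.pi (g n)) atTop (𝓝 z.1) := (continuous_fst.tendsto z).comp hz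
  have hp2 : Tendsto (fun n => T.pi (g n)⁻¹) atTop (𝓝 z.2) := (continuous_snd.tendsto z).comp hz
  have hinv : ∀ g, T.len g⁻¹ = T.len g := T.cnt.inv
  have hlen' : Tendsto (fun n => T.len (g n)⁻¹) atTop atTop := by
    have : (fun n => T.len (g n)⁻¹) = fun n => T.len (g n) := by
      funext n
      exact hinv (g n)
    rw [this]
    exact hlen
  have hlenb : Tendsto (fun n => T.len (g n * b)) atTop atTop := by
    have h1 : ∀ n, T.len (g n) + (-T.len b) ≤ T.len (g n * b) := by
      intro n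
      have h2 : dist T.o (g n • T.o) ≤ dist T.o ((g n * b) • T.o) + dist ((g n * b) • T.o) (g n • T.o) :=
        dist_triangle _ _ _
      rw [mul_smul, T.isom, dist_comm (b • T.o) T.o, ← mul_smul] at h2
      have h3 : T.len (g n) ≤ T.len (g n * b) + T.len b := h2
      linarith
    exact tendsto_atTop_mono h1 (tendsto_atTop_add_const_right _ _ hlen)
  have hpb := BU_right T g hlen z.1 hu1 hp1 b
  have h1 := BU_main T (fun n => g n * b) hlenb z.1 hu1 hpb (a⁻¹ • T.o)
  have h2 := BU_main T (fun n => (g n)⁻¹) hlen' z.2 hu2 hp2 (b • T.o)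
  have h3 : Tendsto (fun n => T.len (a * g n * b) - T.len (g n)) atTop (𝓝 (T.m a b z)) := by
    have h4 := h1.add h2
    have h5 : (fun n => dist (a⁻¹ • T.o) ((g n * b) • T.o) - T.len (g n * b) +
        (dist (b • T.o) ((g n)⁻¹ • T.o) - T.len (g n)⁻¹)) =
        fun n => T.len (a * g n * b) - T.len (g n) := by
      funext n
      have e1 : dist (a⁻¹ • T.o) ((g n * b) • T.o) = T.len (a * g n * b) := by
        show _ = dist T.o ((a * g n * b) • T.o)
        rw [← T.isom a (a⁻¹ • T.o), smul_inv_smul, ← mul_smul, mul_assoc]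
      have e2 : dist (b • T.o) ((g n)⁻¹ • T.o) = T.len (g n * b) := by
        show _ = dist T.o ((g n * b) • T.o)
        rw [← T.isom (g n) (b • T.o), smul_inv_smul, ← mul_smul, dist_comm]
      rw [e1, e2, hinv]
      ring
    rw [← h5]
    exact h4
  have h6 : Tendsto (fun n => T.m a b (T.pi (g n), T.pi (g n)⁻¹)) atTop (𝓝 (T.m a b z)) :=
    ((TS_cont T a b).tendsto z).comp hz
  have h7 := (h3.sub h6).abs
  rw [sub_self, abs_zero] at h7
  have h8 : δ ≤ 0 := by
    refine ge_of_tendsto h7 ?_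
    exact Eventually.of_forall hg
  linarith

/-- BLOCK ON. One-sided almost additivity for a subgroup with a null limit set. -/
theorem ON_main (T : TD G X M) (H : Subgroup G) (hH : T.NullLim H) (ε : ℝ) (hε : 0 < ε) :
    ∃ c : ℝ, T.cnt.Small {g | ∃ h ∈ H, T.len (h * g) < T.len h + T.len g - c} ε := by
  have hcomp := bu_compact T
  obtain ⟨Λ, hΛc, hΛ0, c0, hc0⟩ := hH
  have hprob := T.prob
  have hN1 : (T.nu.prod T.nu) {z | ¬ (z.1 ∉ Λ)} = 0 := by
    apply fr_fst T (fun ξ => ξ ∉ Λ)
    rw [ae_iff]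
    have : {a : T.P | ¬ a ∉ Λ} = Λ := by
      ext a
      exact not_not
    rw [this]
    exact hΛ0
  obtain ⟨c, hc⟩ := DG_main T.cnt
    (fun n => {g | ∃ h ∈ H, T.len (h * g) < T.len h + T.len g - n}) (by
      intro m n hmn g hg
      obtain ⟨h, hh, h1⟩ := hg
      refine ⟨h, hh, ?_⟩
      have h2 : (m : ℝ) ≤ n := by exact_mod_cast hmn
      linarith) ({z | ¬ (z.1 ∉ Λ)} ∪ {z | ¬ T.UE z.1})
    (measure_union_null hN1 (fr_fst T _ T.ue)) (by
      intro g hg hlen z hz
      by_contra hcon
      rw [Set.mem_union, not_or] at hcon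
      have hzΛ : z.1 ∉ Λ := not_not.mp hcon.1
      have hu : T.UE z.1 := not_not.mp hcon.2
      choose h hhH hh using hg
      have hp : Tendsto (fun n => T.pi (g n)) atTop (𝓝 z.1) := (continuous_fst.tendsto z).comp hz
      have hinv : ∀ g, T.len g⁻¹ = T.len g := T.cnt.inv
      have hd : ∀ n, dist ((h n)⁻¹ • T.o) (g n • T.o) = T.len (h n * g n) := by
        intro n
        show _ = dist T.o ((h n * g n) • T.o)
        rw [← T.isom (h n) ((h n)⁻¹ • T.o), smul_inv_smul, ← mul_smul]
      have hd' : ∀ n, dist T.o ((h n)⁻¹ • T.o) = T.len (h n) := fun n => hinv (h n)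
      -- the elements of the subgroup tend to infinity
      have hhl : ∀ n : ℕ, (n : ℝ) / 2 ≤ T.len (h n) := by
        intro n
        have h1 : dist T.o (g n • T.o) ≤ dist T.o ((h n)⁻¹ • T.o) +
          dist ((h n)⁻¹ • T.o) (g n • T.o) := dist_triangle _ _ _
        rw [hd, hd'] at h1
        have h2 : T.len (g n) ≤ T.len (h n) + T.len (h n * g n) := h1
        linarith [hh n]
      have hhlen : Tendsto (fun n => T.len (h n)) atTop atTop := by
        refine tendsto_atTop_mono hhl ?_
        exact tendsto_natCast_atTop_atTop.atTop_div_const (by norm_num)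
      choose η hη1 hη2 using fun n => hc0 (h n)⁻¹ (H.inv_mem (hhH n))
      choose F hF1 hF2 using fun n => T.teich T.o ((h n)⁻¹ • T.o)
      -- subsequence
      obtain ⟨w, φ, hφ, hw⟩ := CompactSpace.tendsto_subseq
        (fun n => ((⟨F n, hF1 n⟩ : T.P), η n))
      have hφ' := hφ.tendsto_atTop
      have hwF : Tendsto (fun n => (⟨F (φ n), hF1 (φ n)⟩ : T.P)) atTop (𝓝 w.1) :=
        (continuous_fst.tendsto w).comp hw
      have hwη : Tendsto (fun n => η (φ n)) atTop (𝓝 w.2) := (continuous_snd.tendsto w).comp hw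
      have hEF : ∀ n, T.E ((h n)⁻¹ • T.o) (F n) = Real.exp (-(2 * T.len (h n))) := by
        intro n
        rw [hF2 n, hF1 n, mul_one, hd']
      have h1 : w.1 = z.1 := by
        apply hu
        apply bu_zero T (hp.comp hφ') hwF (fun n => Real.exp (-(2 * (φ n : ℝ))))
        · have h2 : Tendsto (fun n : ℕ => -(2 * (φ n : ℝ))) atTop atBot := by
            apply tendsto_neg_atTop_atBot.comp
            exact (tendsto_natCast_atTop_atTop.comp hφ').const_mul_atTop (by norm_num)
          exact Real.tendsto_exp_atBot.comp h2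
        · intro n
          refine le_trans (T.minsky ((h (φ n))⁻¹ • T.o) _ _) ?_
          show T.E ((h (φ n))⁻¹ • T.o) (T.pi (g (φ n))).1 * T.E ((h (φ n))⁻¹ • T.o) (F (φ n)) ≤ _
          rw [hEF]
          have h3 := T.kerck ((h (φ n))⁻¹ • T.o) (g (φ n) • T.o) (T.pi (g (φ n))).1
          rw [T.hpi, hd, ← Real.exp_add] at h3
          have h4 : dist T.o (g (φ n) • T.o) = T.len (g (φ n)) := rfl
          rw [h4] at h3
          calc T.E ((h (φ n))⁻¹ • T.o) (T.pi (g (φ n))).1 * Real.exp (-(2 * T.len (h (φ n)))) ≤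
              Real.exp (2 * T.len (h (φ n) * g (φ n)) + -(2 * T.len (g (φ n)))) *
                Real.exp (-(2 * T.len (h (φ n)))) :=
                mul_le_mul_of_nonneg_right h3 (Real.exp_pos _).le
            _ ≤ Real.exp (-(2 * (φ n : ℝ))) := by
                rw [← Real.exp_add]
                apply Real.exp_le_exp.mpr
                linarith [hh (φ n)]
      have h2 : w.2 = z.1 := by
        apply hu
        rw [← h1]
        apply bu_zero T hwF hwη (fun n => c0 * Real.exp (-(2 * T.len (h (φ n)))))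
          (bu_exp T (fun n => h (φ n)) (hhlen.comp hφ') c0)
        intro n
        refine le_trans (T.minsky ((h (φ n))⁻¹ • T.o) _ _) ?_
        show T.E ((h (φ n))⁻¹ • T.o) (F (φ n)) * T.E ((h (φ n))⁻¹ • T.o) (η (φ n)).1 ≤ _
        rw [hEF, mul_comm]
        exact mul_le_mul_of_nonneg_right (hη2 (φ n)) (Real.exp_pos _).le
      apply hzΛ
      rw [← h2]
      exact hΛc.mem_of_tendsto hwη (Eventually.of_forall fun n => hη1 (φ n))) ε hε
  exact ⟨c, hc⟩

end Pool.Agent.DC
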