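import Pool.Agent.Lib_helper35.DC.FR
import Pool.Agent.Lib_helper37.DC.AL
import Pool.Agent.Lib_helper43.DC.LM
import Pool.Agent.Lib_helper67.DC.GE
import Pool.Agent.Lib_helper67.DC.SQ
import Pool.Agent.Lib_helper73.DC.FB
import Pool.Agent.Lib_helper73.DC.NS
import Pool.Agent.Lib_helper73.DC.SD

/-! The main theorem, from the blocks. -/

set_option autoImplicit false

open MeasureTheory Filter Topology

namespace Pool.Agent.DC

variable {G X M : Type} [Group G] [MetricSpace X] [MulAction G X] [MetricSpace M]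
    [MeasurableSpace M] [BorelSpace M] [MulAction G M]

private theorem as_compact (T : TD G X M) : CompactSpace T.P := isCompact_iff_compactSpace.mp T.comp

private theorem as_len_nonneg (T : TD G X M) (g : G) : 0 ≤ T.len g := dist_nonneg

private theorem as_len_inv (T : TD G X M) (g : G) : T.len g⁻¹ = T.len g := T.cnt.inv g

private theorem as_len_mul (T : TD G X M) (a b : G) : T.len (a * b) ≤ T.len a + T.len b := by
  show dist T.o ((a * b) • T.o) ≤ dist T.o (a • T.o) + dist T.o (b • T.o)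
  rw [← T.isom a T.o (b • T.o), ← mul_smul]
  exact dist_triangle _ _ _

private theorem as_len_triv (T : TD G X M) (z : G) (hz : ∀ x : X, z • x = x) : T.len z = 0 := by
  show dist T.o (z • T.o) = 0
  rw [hz, dist_self]

/-- The number of the double cosets which meet the ball. -/
private noncomputable def nn (T : TD G X M) (H K : Subgroup G) (r : ℝ) : ℕ :=
  Set.ncard {S : Set G | ∃ φ : G, S = DoubleCoset.doubleCoset φ (H : Set G) (K : Set G) ∧
    ∃ g ∈ S, T.len g ≤ r}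

private theorem as_gr (T : TD G X M) (H K : Subgroup G) (r : ℝ) : T.gr H K r = nn T H K r := by
  unfold TD.gr nn
  congr 1
  ext S
  constructor
  · rintro ⟨φ, rfl, h⟩
    exact ⟨φ, rfl, (SD_main T H K φ r).mp h⟩
  · rintro ⟨φ, rfl, h⟩
    exact ⟨φ, rfl, (SD_main T H K φ r).mpr h⟩

/-- The pairs of short elements. -/
private abbrev Q (T : TD G X M) (H K : Subgroup G) (t : ℝ) : Type :=
  {p : G × G // p.1 ∈ H ∧ p.2 ∈ K ∧ T.len p.1 ≤ t ∧ T.len p.2 ≤ t}

private theorem as_Q_fin (T : TD G X M) (H K : Subgroup G) (t : ℝ) : Finite (Q T H K t) := by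
  have h1 : ({g | T.len g ≤ t} ×ˢ {g | T.len g ≤ t} : Set (G × G)).Finite :=
    (T.fin t).prod (T.fin t)
  exact (h1.subset (fun p hp => ⟨hp.2.2.1, hp.2.2.2⟩)).to_subtype

/-- The convergent sums. -/
private theorem as_sum (T : TD G X M) (H K : Subgroup G) (t : ℝ) (ht : 0 ≤ t) :
    ∃ L : ℝ, Tendsto (fun r => Real.exp (-(T.h * r)) * ∑ g ∈ (T.fin r).toFinset,
      1 / (Set.ncard {p : Q T H K t | T.len (p.1.1 * g * p.1.2) ≤ r} : ℝ)) atTop (𝓝 L) := by
  have hc := as_compact T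
  have hf := as_Q_fin T H K t
  have h1 : T.len (1 : G) ≤ t := by
    rw [as_len_triv T 1 (fun x => one_smul G x)]
    exact ht
  exact SQ_main T.cnt (ι := Q T H K t) (fun p g => T.len (p.1.1 * g * p.1.2))
    (fun p => T.m p.1.1 p.1.2) (fun p => TS_cont T _ _)
    ⟨(1, 1), H.one_mem, K.one_mem, h1, h1⟩ (fun g => by
      show T.len (1 * g * 1) = T.len g
      rw [one_mul, mul_one]) (fun p δ hδ => TS_main T _ _ δ hδ)

private theorem as_coset_fin (T : TD G X M) (H K : Subgroup G) (g : G) (r : ℝ) :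
    {x | x ∈ DoubleCoset.doubleCoset g (H : Set G) (K : Set G) ∧ T.len x ≤ r}.Finite :=
  (T.fin r).subset fun _ hx => hx.2

private theorem as_coset_pos (T : TD G X M) (H K : Subgroup G) (g : G) (r : ℝ) (hg : T.len g ≤ r) :
    1 ≤ Set.ncard {x | x ∈ DoubleCoset.doubleCoset g (H : Set G) (K : Set G) ∧ T.len x ≤ r} := by
  rw [Nat.one_le_iff_ne_zero, Ne, Set.ncard_eq_zero (as_coset_fin T H K g r)]
  intro h
  have : g ∈ (∅ : Set G) := by
    rw [← h]
    exact ⟨DoubleCoset.mem_doubleCoset_self H K g, hg⟩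
  exact this

private theorem as_Z_fin (T : TD G X M) : {z : G | ∀ x : X, z • x = x}.Finite :=
  (T.fin 0).subset fun z hz => (as_len_triv T z hz).le

private theorem as_Z_pos (T : TD G X M) : 1 ≤ Set.ncard {z : G | ∀ x : X, z • x = x} := by
  rw [Nat.one_le_iff_ne_zero, Ne, Set.ncard_eq_zero (as_Z_fin T)]
  intro h
  have : (1 : G) ∈ (∅ : Set G) := by
    rw [← h]
    exact fun x => one_smul G x
  exact this

/-- The pairs contain the pairs `(z, 1)`. -/
private theorem as_Q_ge (T : TD G X M) (H K : Subgroup G)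
    (hZ : ∀ g : G, (∀ x : X, g • x = x) → g ∈ H ∧ g ∈ K) (t r : ℝ) (ht : 0 ≤ t) (g : G)
    (hg : T.len g ≤ r) : Set.ncard {z : G | ∀ x : X, z • x = x} ≤
      Set.ncard {p : Q T H K t | T.len (p.1.1 * g * p.1.2) ≤ r} := by
  have hf := as_Q_fin T H K t
  have h1 : T.len (1 : G) ≤ t := by
    rw [as_len_triv T 1 (fun x => one_smul G x)]
    exact ht
  classical
  let F : G → Q T H K t := fun z => if hz : ∀ x : X, z • x = x then
    ⟨(z, 1), (hZ z hz).1, K.one_mem, by rw [as_len_triv T z hz]; exact ht, h1⟩ else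
    ⟨(1, 1), H.one_mem, K.one_mem, h1, h1⟩
  have hF : ∀ z (hz : ∀ x : X, z • x = x), (F z).1 = (z, 1) := by
    intro z hz
    have : F z = ⟨(z, 1), (hZ z hz).1, K.one_mem, by rw [as_len_triv T z hz]; exact ht, h1⟩ :=
      dif_pos hz
    rw [this]
  apply Set.ncard_le_ncard_of_injOn F
  · intro z hz
    show T.len ((F z).1.1 * g * (F z).1.2) ≤ r
    rw [hF z hz]
    show dist T.o ((z * g * 1) • T.o) ≤ r
    rw [mul_one, mul_smul, hz]
    exact hg
  · intro z hz z' hz' h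
    have h2 : (F z).1 = (F z').1 := congrArg Subtype.val h
    rw [hF z hz, hF z' hz'] at h2
    exact congrArg Prod.fst h2

/-- The exceptional set is small. -/
private theorem as_bad (T : TD G X M) (H K : Subgroup G) (hH : T.NullLim H) (hK : T.NullLim K)
    (ε : ℝ) (hε : 0 < ε) : ∃ t : ℝ, 0 ≤ t ∧ ∀ᶠ r in atTop, (Set.ncard {g : G | T.len g ≤ r ∧
      ((∃ a ∈ H, ∃ b ∈ K, T.len (a * g * b) ≤ r ∧ (t < T.len a ∨ t < T.len b)) ∨
      ∃ a ∈ H, ∃ b ∈ K, T.len a ≤ 2 * t ∧ T.len b ≤ 2 * t ∧ a * g = g * b ∧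
        ∃ x : X, a • x ≠ x)} : ℝ) ≤ ε * Real.exp (T.h * r) := by
  have hc := as_compact T
  obtain ⟨t, ht, h1⟩ := GE_main T H K hH hK (ε / 2) (by linarith)
  refine ⟨t, ht, ?_⟩
  have hf := as_Q_fin T H K (2 * t)
  have h2 : T.cnt.Negl (⋃ p : {p : Q T H K (2 * t) // ∃ x : X, p.1.1 • x ≠ x},
      {g | p.1.1.1 * g = g * p.1.1.2}) :=
    AL_iUnion T.cnt fun p => FR_main T _ _ p.2
  have h3 := h2 (ε / 2) (by linarith)
  filter_upwards [h1, h3] with r h4 h5
  have h6 : (T.cnt.len : G → ℝ) = T.len := rfl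
  have h7 : T.cnt.h = T.h := rfl
  rw [h7] at h5
  have h8 : Set.ncard {g : G | T.len g ≤ r ∧
      ((∃ a ∈ H, ∃ b ∈ K, T.len (a * g * b) ≤ r ∧ (t < T.len a ∨ t < T.len b)) ∨
      ∃ a ∈ H, ∃ b ∈ K, T.len a ≤ 2 * t ∧ T.len b ≤ 2 * t ∧ a * g = g * b ∧
        ∃ x : X, a • x ≠ x)} ≤ Set.ncard {g : G | T.len g ≤ r ∧
      ∃ a ∈ H, ∃ b ∈ K, T.len (a * g * b) ≤ r ∧ (t < T.len a ∨ t < T.len b)} +
      Set.ncard {g | g ∈ (⋃ p : {p : Q T H K (2 * t) // ∃ x : X, p.1.1 • x ≠ x},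
      {g | p.1.1.1 * g = g * p.1.1.2}) ∧ T.cnt.len g ≤ r} := by
    refine le_trans (Set.ncard_le_ncard ?_ ?_) (Set.ncard_union_le _ _)
    · rintro g ⟨hg, h | ⟨a, ha, b, hb, la, lb, hab, hx⟩⟩
      · exact Or.inl ⟨hg, h⟩
      · right
        refine ⟨Set.mem_iUnion.mpr ⟨⟨⟨(a, b), ha, hb, la, lb⟩, hx⟩, hab⟩, hg⟩
    · refine (T.fin r).subset ?_
      rintro g (⟨hg, -⟩ | ⟨-, hg⟩)
      · exact hg
      · exact hg
  calc (Set.ncard {g : G | T.len g ≤ r ∧
      ((∃ a ∈ H, ∃ b ∈ K, T.len (a * g * b) ≤ r ∧ (t < T.len a ∨ t < T.len b)) ∨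
      ∃ a ∈ H, ∃ b ∈ K, T.len a ≤ 2 * t ∧ T.len b ≤ 2 * t ∧ a * g = g * b ∧
        ∃ x : X, a • x ≠ x)} : ℝ) ≤ ((Set.ncard {g : G | T.len g ≤ r ∧
      ∃ a ∈ H, ∃ b ∈ K, T.len (a * g * b) ≤ r ∧ (t < T.len a ∨ t < T.len b)} +
      Set.ncard {g | g ∈ (⋃ p : {p : Q T H K (2 * t) // ∃ x : X, p.1.1 • x ≠ x},
      {g | p.1.1.1 * g = g * p.1.1.2}) ∧ T.cnt.len g ≤ r} : ℕ) : ℝ) := Nat.cast_le.mpr h8
    _ ≤ ε / 2 * Real.exp (T.h * r) + ε / 2 * Real.exp (T.h * r) := by
        rw [Nat.cast_add]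
        exact add_le_add h4 h5
    _ = ε * Real.exp (T.h * r) := by ring

/-- The exceptional set. -/
private def Bad (T : TD G X M) (H K : Subgroup G) (t r : ℝ) : Set G := {g : G | T.len g ≤ r ∧
      ((∃ a ∈ H, ∃ b ∈ K, T.len (a * g * b) ≤ r ∧ (t < T.len a ∨ t < T.len b)) ∨
      ∃ a ∈ H, ∃ b ∈ K, T.len a ≤ 2 * t ∧ T.len b ≤ 2 * t ∧ a * g = g * b ∧
        ∃ x : X, a • x ≠ x)}

private theorem as_Bad_sum (T : TD G X M) (H K : Subgroup G) (t r : ℝ)
    [DecidablePred (· ∈ Bad T H K t r)] : ((Bad T H K t r).ncard : ℝ) =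
    ∑ g ∈ (T.fin r).toFinset, if g ∈ Bad T H K t r then (1 : ℝ) else 0 := by
  have hBfin : (Bad T H K t r).Finite := (T.fin r).subset fun g hg => hg.1
  rw [Set.ncard_eq_toFinset_card _ hBfin, Finset.sum_ite, Finset.sum_const_zero, add_zero,
    Finset.sum_const, nsmul_eq_mul, mul_one]
  congr 1
  congr 1
  ext g
  rw [Set.Finite.mem_toFinset, Finset.mem_filter, Set.Finite.mem_toFinset]
  exact ⟨fun h => ⟨h.1, h⟩, fun h => h.2⟩

private theorem as_good (T : TD G X M) (H K : Subgroup G)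
    (hZ : ∀ g : G, (∀ x : X, g • x = x) → g ∈ H ∧ g ∈ K) (t r : ℝ) (g : G) (hgr : T.len g ≤ r)
    (hb : g ∉ Bad T H K t r) :
    Set.ncard {x | x ∈ DoubleCoset.doubleCoset g (H : Set G) (K : Set G) ∧ T.len x ≤ r} *
      Set.ncard {z : G | ∀ x : X, z • x = x} =
    Set.ncard {p : Q T H K t | T.len (p.1.1 * g * p.1.2) ≤ r} := by
  apply FB_main T H K hZ t r g
  · intro a ha b hb' hab
    by_contra hcon
    apply hb
    refine ⟨hgr, Or.inl ⟨a, ha, b, hb', hab, ?_⟩⟩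
    by_contra hcon2
    rw [not_or, not_lt, not_lt] at hcon2
    exact hcon hcon2
  · intro a ha b hb' la lb hab x
    by_contra hx
    exact hb ⟨hgr, Or.inr ⟨a, ha, b, hb', la, lb, hab, x, hx⟩⟩

/-- Comparison of the count with the convergent sums. -/
private theorem as_cmp (T : TD G X M) (H K : Subgroup G) (hH : T.NullLim H) (hK : T.NullLim K)
    (hZ : ∀ g : G, (∀ x : X, g • x = x) → g ∈ H ∧ g ∈ K) (ε : ℝ) (hε : 0 < ε) :
    ∃ t : ℝ, 0 ≤ t ∧ ∀ᶠ r in atTop,
      |(nn T H K r : ℝ) - (Set.ncard {z : G | ∀ x : X, z • x = x} : ℝ) *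
        ∑ g ∈ (T.fin r).toFinset,
          1 / (Set.ncard {p : Q T H K t | T.len (p.1.1 * g * p.1.2) ≤ r} : ℝ)| ≤
        ε * Real.exp (T.h * r) := by
  obtain ⟨t, ht, h1⟩ := as_bad T H K hH hK ε hε
  refine ⟨t, ht, ?_⟩
  filter_upwards [h1] with r h2
  refine le_trans ?_ h2
  have hns : (nn T H K r : ℝ) = ∑ g ∈ (T.fin r).toFinset, 1 / (Set.ncard {x | x ∈
      DoubleCoset.doubleCoset g (H : Set G) (K : Set G) ∧ T.len x ≤ r} : ℝ) := NS_main T H K r
  rw [hns, Finset.mul_sum, ← Finset.sum_sub_distrib]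
  refine le_trans (Finset.abs_sum_le_sum_abs _ _) ?_
  classical
  have h3 := as_Bad_sum T H K t r
  show _ ≤ ((Bad T H K t r).ncard : ℝ)
  rw [h3]
  apply Finset.sum_le_sum
  intro g hg
  have hgr : T.len g ≤ r := by
    rw [Set.Finite.mem_toFinset] at hg
    exact hg
  have hgood := as_good T H K hZ t r g hgr
  set c : ℕ := Set.ncard {x | x ∈ DoubleCoset.doubleCoset g (H : Set G) (K : Set G) ∧
    T.len x ≤ r} with hc
  set q : ℕ := Set.ncard {p : Q T H K t | T.len (p.1.1 * g * p.1.2) ≤ r} with hq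
  set w : ℕ := Set.ncard {z : G | ∀ x : X, z • x = x} with hw
  have hc1 : 1 ≤ c := as_coset_pos T H K g r hgr
  have hw1 : 1 ≤ w := as_Z_pos T
  have hqw : w ≤ q := as_Q_ge T H K hZ t r ht g hgr
  have hcR : (1 : ℝ) ≤ c := by exact_mod_cast hc1
  have hwR : (1 : ℝ) ≤ w := by exact_mod_cast hw1
  have hqR : (w : ℝ) ≤ q := by exact_mod_cast hqw
  by_cases hb : g ∈ Bad T H K t r
  · rw [if_pos hb]
    have e1 : (0 : ℝ) ≤ 1 / c ∧ 1 / (c : ℝ) ≤ 1 := by
      constructor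
      · positivity
      · rw [div_le_one (by linarith)]
        exact hcR
    have e2 : (0 : ℝ) ≤ w * (1 / q) ∧ (w : ℝ) * (1 / q) ≤ 1 := by
      constructor
      · positivity
      · rw [mul_one_div, div_le_one (by linarith)]
        exact hqR
    rw [abs_le]
    constructor <;> linarith [e1.1, e1.2, e2.1, e2.2]
  · rw [if_neg hb]
    have hfR : (q : ℝ) = c * w := by
      rw [← hgood hb]
      push_cast
      ring
    have : (1 : ℝ) / c - w * (1 / q) = 0 := by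
      rw [hfR]
      field_simp
      ring
    rw [this, abs_zero]

/-- The number of the double cosets has at least the expected growth. -/
private theorem as_pos (T : TD G X M) (H K : Subgroup G) (hH : T.NullLim H) (hK : T.NullLim K)
    (hZ : ∀ g : G, (∀ x : X, g • x = x) → g ∈ H ∧ g ∈ K) :
    ∃ c : ℝ, 0 < c ∧ ∀ᶠ r in atTop, c * Real.exp (T.h * r) ≤ (nn T H K r : ℝ) := by
  have hcp := as_compact T
  have hCp := T.Cpos
  obtain ⟨t, ht, h1⟩ := as_bad T H K hH hK (T.C / 4) (by linarith)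
  have hf := as_Q_fin T H K t
  have hball : ∀ᶠ r in atTop, T.C / 2 * Real.exp (T.h * r) ≤
      (Set.ncard {g : G | T.len g ≤ r} : ℝ) := by
    have h2 : ∀ᶠ r in atTop, T.C / 2 ≤ Real.exp (-(T.h * r)) *
        (Set.ncard {g : G | T.len g ≤ r} : ℝ) :=
      (AL_ball T.cnt).eventually (Ici_mem_nhds (by
        show T.C / 2 < T.C
        linarith))
    filter_upwards [h2] with r h3
    have hpos := Real.exp_pos (T.h * r)
    rw [Real.exp_neg] at h3
    calc T.C / 2 * Real.exp (T.h * r) ≤ ((Real.exp (T.h * r))⁻¹ *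
          (Set.ncard {g : G | T.len g ≤ r} : ℝ)) * Real.exp (T.h * r) :=
          mul_le_mul_of_nonneg_right h3 hpos.le
      _ = (Set.ncard {g : G | T.len g ≤ r} : ℝ) := by
          field_simp
  set q : ℕ := Nat.card (Q T H K t) with hq
  have hw1 : 1 ≤ Set.ncard {z : G | ∀ x : X, z • x = x} := as_Z_pos T
  have h1t : T.len (1 : G) ≤ t := by
    rw [as_len_triv T 1 (fun x => one_smul G x)]
    exact ht
  have hq1 : 1 ≤ q := by
    rw [Nat.one_le_iff_ne_zero, Ne, Finite.card_eq_zero_iff]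
    intro h
    exact h.elim ⟨(1, 1), H.one_mem, K.one_mem, h1t, h1t⟩
  have hqR : (1 : ℝ) ≤ q := by exact_mod_cast hq1
  refine ⟨T.C / 4 / q, by positivity, ?_⟩
  filter_upwards [h1, hball] with r h2 h3
  have hns : (nn T H K r : ℝ) = ∑ g ∈ (T.fin r).toFinset, 1 / (Set.ncard {x | x ∈
      DoubleCoset.doubleCoset g (H : Set G) (K : Set G) ∧ T.len x ≤ r} : ℝ) := NS_main T H K r
  classical
  have hbs := as_Bad_sum T H K t r
  have h2' : ((Bad T H K t r).ncard : ℝ) ≤ T.C / 4 * Real.exp (T.h * r) := h2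
  have hbs2 : (Set.ncard {g : G | T.len g ≤ r} : ℝ) = ∑ g ∈ (T.fin r).toFinset, (1 : ℝ) := by
    rw [Finset.sum_const, nsmul_eq_mul, mul_one]
    exact congrArg _ (Set.ncard_eq_toFinset_card _ (T.fin r))
  have h4 : ∑ g ∈ (T.fin r).toFinset, (1 / (q : ℝ)) * (1 - if g ∈ Bad T H K t r then (1 : ℝ) else 0) ≤
      (nn T H K r : ℝ) := by
    rw [hns]
    apply Finset.sum_le_sum
    intro g hg
    have hgr : T.len g ≤ r := by
      rw [Set.Finite.mem_toFinset] at hg
      exact hg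
    by_cases hb : g ∈ Bad T H K t r
    · rw [if_pos hb, sub_self, mul_zero]
      positivity
    · rw [if_neg hb, sub_zero, mul_one]
      have hgood := as_good T H K hZ t r g hgr hb
      have hc1 := as_coset_pos T H K g r hgr
      have h5 : Set.ncard {p : Q T H K t | T.len (p.1.1 * g * p.1.2) ≤ r} ≤ q := by
        rw [hq, ← Set.ncard_univ]
        exact Set.ncard_le_ncard (Set.subset_univ _)
      have h6 : Set.ncard {x | x ∈ DoubleCoset.doubleCoset g (H : Set G) (K : Set G) ∧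
          T.len x ≤ r} ≤ q := by
        refine le_trans ?_ h5
        rw [← hgood]
        exact Nat.le_mul_of_pos_right _ hw1
      apply one_div_le_one_div_of_le
      · exact_mod_cast hc1
      · exact_mod_cast h6
  have h5 : ∑ g ∈ (T.fin r).toFinset, (1 / (q : ℝ)) *
      (1 - if g ∈ Bad T H K t r then (1 : ℝ) else 0) =
      (1 / (q : ℝ)) * ((Set.ncard {g : G | T.len g ≤ r} : ℝ) - ((Bad T H K t r).ncard : ℝ)) := by
    rw [← Finset.mul_sum, Finset.sum_sub_distrib, ← hbs, ← hbs2]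
  rw [h5] at h4
  refine le_trans ?_ h4
  have hpos := Real.exp_pos (T.h * r)
  calc T.C / 4 / q * Real.exp (T.h * r) = (1 / (q : ℝ)) * (T.C / 4 * Real.exp (T.h * r)) := by ring
    _ ≤ _ := by
        apply mul_le_mul_of_nonneg_left _ (by positivity)
        linarith

/-- The main theorem. -/
theorem main (T : TD G X M) (H K : Subgroup G) (hH : T.NullLim H) (hK : T.NullLim K)
    (hZ : ∀ g : G, (∀ x : X, g • x = x) → g ∈ H ∧ g ∈ K) :
    ∃ L : ℝ, 0 < L ∧ Tendsto (fun r => (T.gr H K r : ℝ) / Real.exp (T.h * r)) atTop (𝓝 L) := by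
  obtain ⟨L, hL⟩ := LM_main (fun r => (nn T H K r : ℝ) / Real.exp (T.h * r)) (by
    intro ε hε
    obtain ⟨t, ht, h1⟩ := as_cmp T H K hH hK hZ ε hε
    obtain ⟨L, hL⟩ := as_sum T H K t ht
    refine ⟨_, _, hL.const_mul (Set.ncard {z : G | ∀ x : X, z • x = x} : ℝ), ?_⟩
    filter_upwards [h1] with r h2
    have hpos := Real.exp_pos (T.h * r)
    rw [Real.exp_neg]
    have e1 : (nn T H K r : ℝ) / Real.exp (T.h * r) -
        (Set.ncard {z : G | ∀ x : X, z • x = x} : ℝ) * ((Real.exp (T.h * r))⁻¹ *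
        ∑ g ∈ (T.fin r).toFinset,
          1 / (Set.ncard {p : Q T H K t | T.len (p.1.1 * g * p.1.2) ≤ r} : ℝ)) =
        ((nn T H K r : ℝ) - (Set.ncard {z : G | ∀ x : X, z • x = x} : ℝ) *
        ∑ g ∈ (T.fin r).toFinset,
          1 / (Set.ncard {p : Q T H K t | T.len (p.1.1 * g * p.1.2) ≤ r} : ℝ)) /
          Real.exp (T.h * r) := by
      field_simp
    rw [e1, abs_div, abs_of_pos hpos, div_le_iff₀ hpos]
    exact h2)
  obtain ⟨c, hc, h2⟩ := as_pos T H K hH hK hZ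
  refine ⟨L, ?_, ?_⟩
  · have h3 : c ≤ L := by
      refine ge_of_tendsto hL ?_
      filter_upwards [h2] with r h4
      rw [le_div_iff₀ (Real.exp_pos _)]
      exact h4
    linarith
  · have h5 : (fun r => (T.gr H K r : ℝ) / Real.exp (T.h * r)) =
        fun r => (nn T H K r : ℝ) / Real.exp (T.h * r) := by
      funext r
      rw [as_gr]
    rw [h5]
    exact hL

end Pool.Agent.DC
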